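import Pool.Agent.Lib.MP_daac75_pr.Lim

/-!
# The logarithmic factors in the two-type threshold competition model can be removed

Both parts (a) and (b) of the question hold, and `q ≪ p ^ 2` can even be replaced by
`q ≤ c p ^ 2` with a small constant `c` (and `p ^ (1 / 2) ≪ q` by `p ≤ c q ^ 2`).

Idea of the proof.  A block has side `4 L` with `L = n ^ 5`, where `n` is of order `p ^ (-1 / 4)`.
In a good block the twos are isolated, every segment of length `L` contains a one, and a full
segment of length at least `4 L` advances `8 L` steps and loses less than `L` at each of its ends: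
a loss of length `d` needs a two and `d - 1` sites next to it without ones, and chains of losses of
total length `k` in `m` steps have probability at most `(1 - p / 2) ^ k (1 + 4 q / p) ^ m`.  A full
good block makes the eight neighbouring blocks full.  Good blocks percolate along Lipschitz paths,
and a row of ones at the foot of a stem of good blocks occurs within distance `n ^ (O(L))`.  Up to
this distance the two-neighbour closure of the twos has only small components (Aizenman and
Lebowitz), so that in good blocks it consists of the initial twos only.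
-/

open MeasureTheory Filter Topology

namespace Pool.Agent.Results.MP_daac75_pr.NoLogarithms

open Pool.Agent.Lib.MP_daac75_pr

/-- (a) if `q ≪ p ^ 2`, then the origin is eventually in state `1` with probability tending to
one; (b) if `p ^ (1 / 2) ≪ q`, then the origin is eventually in state `2` with probability tending
to one; (c) for some constant `c > 0` the same holds already if `q ≤ c p ^ 2`, respectively
`p ≤ c q ^ 2`. -/
theorem result :
    (∀ p q : ℕ → ℝ, (∀ k, 0 < p k) → (∀ k, 0 ≤ q k) → (∀ k, p k + q k ≤ 1) →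
      Tendsto p atTop (𝓝 0) → Tendsto q atTop (𝓝 0) →
      Tendsto (fun k => q k / p k ^ 2) atTop (𝓝 0) →
      Tendsto (fun k => initLaw (p k) (q k) (originEventually 1)) atTop (𝓝 1)) ∧
    (∀ p q : ℕ → ℝ, (∀ k, 0 ≤ p k) → (∀ k, 0 < q k) → (∀ k, p k + q k ≤ 1) →
      Tendsto p atTop (𝓝 0) → Tendsto q atTop (𝓝 0) →
      Tendsto (fun k => p k ^ (1 / 2 : ℝ) / q k) atTop (𝓝 0) →
      Tendsto (fun k => initLaw (p k) (q k) (originEventually 2)) atTop (𝓝 1)) ∧
    ∃ c : ℝ, 0 < c ∧
      (∀ p q : ℕ → ℝ, (∀ k, 0 < p k) → (∀ k, 0 ≤ q k) → (∀ k, p k + q k ≤ 1) →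
        Tendsto p atTop (𝓝 0) → Tendsto q atTop (𝓝 0) → (∀ k, q k ≤ c * p k ^ 2) →
        Tendsto (fun k => initLaw (p k) (q k) (originEventually 1)) atTop (𝓝 1)) ∧
      (∀ p q : ℕ → ℝ, (∀ k, 0 ≤ p k) → (∀ k, 0 < q k) → (∀ k, p k + q k ≤ 1) →
        Tendsto p atTop (𝓝 0) → Tendsto q atTop (𝓝 0) → (∀ k, p k ≤ c * q k ^ 2) →
        Tendsto (fun k => initLaw (p k) (q k) (originEventually 2)) atTop (𝓝 1)) := by
  refine ⟨?_, ?_, 1 / 10 ^ 6, by positivity, ?_, ?_⟩
  · intro p q hp hq hpq h0 _ h1
    refine lim_one hp hq hpq h0 ?_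
    filter_upwards [h1.eventually_lt_const (show (0 : ℝ) < 1 / 10 ^ 6 by positivity)] with k hk
    have := hp k
    rw [div_lt_iff₀ (by positivity)] at hk
    exact hk.le
  · intro p q hp hq hpq _ h0 h1
    refine lim_two hp hq hpq h0 ?_
    filter_upwards [h1.eventually_lt_const (show (0 : ℝ) < 1 / 10 ^ 3 by positivity)] with k hk
    have h2 := hq k
    rw [div_lt_iff₀ h2] at hk
    have h3 : p k ^ (1 / 2 : ℝ) * p k ^ (1 / 2 : ℝ) = p k := by
      rw [← Real.sqrt_eq_rpow]
      exact Real.mul_self_sqrt (hp k)
    have h4 : 0 ≤ p k ^ (1 / 2 : ℝ) := Real.rpow_nonneg (hp k) _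
    rw [← h3]
    nlinarith
  · intro p q hp hq hpq h0 _ h1
    exact lim_one hp hq hpq h0 (Eventually.of_forall h1)
  · intro p q hp hq hpq _ h0 h1
    exact lim_two hp hq hpq h0 (Eventually.of_forall h1)

end Pool.Agent.Results.MP_daac75_pr.NoLogarithms
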